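import Pool.Agent.V5helper23.PF.Stm2

/-! # PROJECT PF, job DSC: from the unit square to the disc -/

set_option autoImplicit false
set_option linter.all false

open MeasureTheory Set Real Filter Topology
open scoped ENNReal

namespace Pool.Agent.V5helper22.PF

open Pool.Agent.V5helper23.PF

/-- the affine map from the disc to the square -/
noncomputable def aff (c : ℝ) (p : ℝ × ℝ) : ℝ × ℝ := (c * p.1 + 1 / 2, c * p.2 + 1 / 2)

lemma aff_cont (c : ℝ) : Continuous (aff c) := by unfold aff; fun_prop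

lemma aff_deriv {c : ℝ} {g : ℝ × ℝ → ℝ} {α β : ℝ} {p : ℝ × ℝ}
    (h : HasFDerivAt g (α • ContinuousLinearMap.fst ℝ ℝ ℝ + β • ContinuousLinearMap.snd ℝ ℝ ℝ)
      (aff c p)) :
    HasFDerivAt (fun q => g (aff c q)) ((c * α) • ContinuousLinearMap.fst ℝ ℝ ℝ +
      (c * β) • ContinuousLinearMap.snd ℝ ℝ ℝ) p := by
  have h1 : HasFDerivAt (aff c) ((c • ContinuousLinearMap.fst ℝ ℝ ℝ).prod
      (c • ContinuousLinearMap.snd ℝ ℝ ℝ)) p := by
    unfold aff
    exact ((hasFDerivAt_fst.const_mul c).add_const _).prodMk ((hasFDerivAt_snd.const_mul c).add_const _)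
  refine (h.comp p h1).congr_fderiv ?_
  ext <;> simp [mul_comm]

lemma aff_mem {R : ℝ} (hR : 0 < R) {p : ℝ × ℝ} (hp : p ∈ disc R) : aff (2 * R)⁻¹ p ∈ sq := by
  have h : p.1 ^ 2 + p.2 ^ 2 < R ^ 2 := hp
  have h1 : |p.1| < R := abs_lt_of_sq_lt_sq (by nlinarith [sq_nonneg p.2]) hR.le
  have h2 : |p.2| < R := abs_lt_of_sq_lt_sq (by nlinarith [sq_nonneg p.1]) hR.le
  have key : ∀ x : ℝ, |x| < R → (2 * R)⁻¹ * x + 1 / 2 ∈ Ioo (0:ℝ) 1 := by
    intro x hx
    obtain ⟨a, b⟩ := abs_lt.1 hx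
    have e : (2 * R)⁻¹ * x + 1 / 2 = (x + R) / (2 * R) := by field_simp
    rw [e]
    constructor
    · apply div_pos <;> linarith
    · rw [div_lt_one (by positivity)]; linarith
  exact ⟨key _ h1, key _ h2⟩

lemma aff_cl {R : ℝ} (hR : 0 < R) {p : ℝ × ℝ} (hp : p ∈ closure (disc R)) :
    aff (2 * R)⁻¹ p ∈ Icc (0:ℝ) 1 ×ˢ Icc (0:ℝ) 1 := by
  have hc : IsClosed {p : ℝ × ℝ | aff (2 * R)⁻¹ p ∈ Icc (0:ℝ) 1 ×ˢ Icc (0:ℝ) 1} :=
    (isClosed_Icc.prod isClosed_Icc).preimage (aff_cont _)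
  have hsub : disc R ⊆ {p : ℝ × ℝ | aff (2 * R)⁻¹ p ∈ Icc (0:ℝ) 1 ×ˢ Icc (0:ℝ) 1} :=
    fun q hq => ⟨Ioo_subset_Icc_self (aff_mem hR hq).1, Ioo_subset_Icc_self (aff_mem hR hq).2⟩
  exact closure_minimal hsub hc hp

lemma disc_open (R : ℝ) : IsOpen (disc R) := by
  unfold disc
  exact isOpen_lt (by fun_prop) continuous_const

lemma map_line {c : ℝ} (hc : c ≠ 0) (e : ℝ) :
    Measure.map (fun x : ℝ => c * x + e) volume = ENNReal.ofReal |c⁻¹| • (volume : Measure ℝ) := by
  have h1 : (fun x : ℝ => c * x + e) = (fun x => x + e) ∘ (fun x => c * x) := rfl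
  rw [h1, ← Measure.map_map (by fun_prop) (by fun_prop), Real.map_volume_mul_left hc,
    Measure.map_smul, map_add_right_eq_self]

lemma map_plane {c : ℝ} (hc : c ≠ 0) (e : ℝ) :
    Measure.map (fun p : ℝ × ℝ => (c * p.1 + e, c * p.2 + e)) (volume : Measure (ℝ × ℝ)) =
      (ENNReal.ofReal |c⁻¹| * ENNReal.ofReal |c⁻¹|) • (volume : Measure (ℝ × ℝ)) := by
  have h1 : (fun p : ℝ × ℝ => (c * p.1 + e, c * p.2 + e)) =
    Prod.map (fun x : ℝ => c * x + e) (fun x : ℝ => c * x + e) := rfl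
  rw [h1, Measure.volume_eq_prod, ← Measure.map_prod_map _ _ (by fun_prop) (by fun_prop),
    map_line hc, Measure.prod_smul_left, Measure.prod_smul_right, smul_smul]

lemma push_disc {R : ℝ} (hR : 0 < R) :
    ∃ C : ℝ≥0∞, C ≠ ⊤ ∧ Measure.map (aff (2 * R)⁻¹) (volume.restrict (disc R)) ≤
      C • volume.restrict sq := by
  have hc : (2 * R)⁻¹ ≠ 0 := inv_ne_zero (by positivity)
  have hmap := map_plane hc (1 / 2)
  refine ⟨_, ENNReal.mul_ne_top (a := ENNReal.ofReal |((2 * R)⁻¹)⁻¹|)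
    (b := ENNReal.ofReal |((2 * R)⁻¹)⁻¹|) ENNReal.ofReal_ne_top ENNReal.ofReal_ne_top, ?_⟩
  rw [Measure.le_iff]
  intro A hA
  have hm : Measurable (aff (2 * R)⁻¹) := (aff_cont _).measurable
  have hAs : MeasurableSet (A ∩ sq) := hA.inter sq_open.measurableSet
  rw [Measure.map_apply hm hA, Measure.restrict_apply (hm hA)]
  have hsub : aff (2 * R)⁻¹ ⁻¹' A ∩ disc R ⊆ aff (2 * R)⁻¹ ⁻¹' (A ∩ sq) := by
    rintro x ⟨hx1, hx2⟩
    exact ⟨hx1, aff_mem hR hx2⟩
  refine (measure_mono hsub).trans ?_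
  rw [← Measure.map_apply hm hAs]
  have e : Measure.map (aff (2 * R)⁻¹) (volume : Measure (ℝ × ℝ)) = _ := hmap
  rw [e]
  simp only [Measure.smul_apply, smul_eq_mul]
  rw [Measure.restrict_apply hA]

/-- from the square to the disc -/
lemma prof_disc {R T : ℝ} (hR : 0 < R) (hT : 0 < T) {F G : ℝ × ℝ → ℝ}
    (hFm : AEMeasurable F (volume.restrict (disc R)))
    (hG : ∀ p ∈ disc R, G (aff (2 * R)⁻¹ p) = F p) {v vx vy vxx vxy vyy : ℝ → ℝ → ℝ → ℝ}
    (h : Prof ((2 * R)⁻¹ * (2 * R)⁻¹) ((2 * R)⁻¹ * (2 * R)⁻¹) T G v vx vy vxx vxy vyy) :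
    HP (disc R) T F (fun t p => v t (aff (2 * R)⁻¹ p).1 (aff (2 * R)⁻¹ p).2) := by
  obtain ⟨c, hc⟩ : ∃ c : ℝ, c = (2 * R)⁻¹ := ⟨_, rfl⟩
  obtain ⟨C, hC, hpush⟩ := push_disc hR
  have hin : ∀ p ∈ disc R, aff c p ∈ sq := fun p hp => by rw [hc]; exact aff_mem hR hp
  have hcl : ∀ p ∈ closure (disc R), aff c p ∈ Icc (0:ℝ) 1 ×ˢ Icc (0:ℝ) 1 :=
    fun p hp => by rw [hc]; exact aff_cl hR hp
  rw [← hc] at h hpush hG ⊢
  have hAc := aff_cont c
  have hAm : Measurable (aff c) := hAc.measurable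
  have key : ∀ H : ℝ × ℝ × ℝ → ℝ, IntegrableOn H (Ioo 0 T ×ˢ sq) →
      IntegrableOn (fun q : ℝ × ℝ × ℝ => H (q.1, aff c q.2)) (Ioo 0 T ×ˢ disc R) := by
    intro H hH
    have hG' : Integrable H ((volume.restrict (Ioo 0 T)).prod (volume.restrict sq)) := by
      unfold IntegrableOn at hH
      rwa [Measure.volume_eq_prod, ← Measure.prod_restrict] at hH
    have hG2 : Integrable H ((volume.restrict (Ioo 0 T)).prod
        (C • (volume.restrict sq : Measure (ℝ × ℝ)))) := by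
      rw [Measure.prod_smul_right]
      exact hG'.smul_measure hC
    have hG3 : Integrable H ((volume.restrict (Ioo 0 T)).prod
        (Measure.map (aff c) (volume.restrict (disc R)))) :=
      hG2.mono_measure (Measure.prod_mono le_rfl hpush)
    have e : (volume.restrict (Ioo 0 T)).prod (Measure.map (aff c) (volume.restrict (disc R))) =
        Measure.map (Prod.map id (aff c)) ((volume.restrict (Ioo 0 T)).prod
          (volume.restrict (disc R))) := by
      rw [← Measure.map_prod_map _ _ measurable_id hAm, Measure.map_id]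
    rw [e] at hG3
    have hG4 := hG3.comp_measurable (measurable_id.prodMap hAm)
    unfold IntegrableOn
    rw [Measure.volume_eq_prod, ← Measure.prod_restrict]
    exact hG4
  have hcs : ∀ {g : ℝ × ℝ → ℝ} (κ : ℝ), ContinuousOn g sq →
      ContinuousOn (fun p : ℝ × ℝ => κ * g (aff c p)) (disc R) := by
    intro g κ hg
    exact continuousOn_const.mul (hg.comp hAc.continuousOn fun p hp => hin p hp)
  refine ⟨fun t p => c * vx t (aff c p).1 (aff c p).2, fun t p => c * vy t (aff c p).1 (aff c p).2,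
    fun t p => c * c * vxx t (aff c p).1 (aff c p).2,
    fun t p => c * c * vxy t (aff c p).1 (aff c p).2,
    fun t p => c * c * vyy t (aff c p).1 (aff c p).2, ?_⟩
  refine ⟨?_, ?_, ?_, ?_, ?_, ?_, ?_, ?_, ?_, ?_, ?_, ?_, hFm⟩
  · exact h.cont.comp (f := fun q : ℝ × ℝ × ℝ => (q.1, (aff c q.2).1, (aff c q.2).2))
      (by
        refine Continuous.continuousOn ?_
        have := hAc
        fun_prop) fun q hq => ⟨hq.1, hcl _ hq.2⟩
  · exact fun t ht => hcs _ (h.cxx t ht)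
  · exact fun t ht => hcs _ (h.cxy t ht)
  · exact fun t ht => hcs _ (h.cyy t ht)
  · intro t ht p hp
    exact aff_deriv (g := fun p => v t p.1 p.2) (h.d1 t ht _ (hin p hp))
  · intro t ht p hp
    have h1 := (aff_deriv (g := fun p => vx t p.1 p.2) (h.dx t ht _ (hin p hp))).const_mul c
    refine h1.congr_fderiv ?_
    ext <;> simp [mul_assoc]
  · intro t ht p hp
    have h1 := (aff_deriv (g := fun p => vy t p.1 p.2) (h.dy t ht _ (hin p hp))).const_mul c
    refine h1.congr_fderiv ?_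
    ext <;> simp [mul_assoc]
  · intro t ht p hp
    exact h.dt t ht _ (hin p hp)
  · have hac : Measure.map (aff c) (volume.restrict (disc R)) ≪ volume.restrict sq :=
      (Measure.absolutelyContinuous_of_le hpush).trans Measure.smul_absolutelyContinuous
    have h1 : ∀ t ∈ Ioc 0 T, ∫⁻ p in disc R, ENNReal.ofReal ((v t (aff c p).1 (aff c p).2 -
        F p) ^ 2) ≤ C * ∫⁻ p in sq, ENNReal.ofReal ((v t p.1 p.2 - G p) ^ 2) := by
      intro t ht
      have hae : AEMeasurable (fun p : ℝ × ℝ => ENNReal.ofReal ((v t p.1 p.2 - G p) ^ 2))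
          (volume.restrict sq) := by
        have a1 : ContinuousOn (fun p : ℝ × ℝ => v t p.1 p.2) sq := by
          refine h.cont.comp (f := fun p : ℝ × ℝ => (t, p.1, p.2)) (by fun_prop)
            fun p hp => ⟨ht, Ioo_subset_Icc_self hp.1, Ioo_subset_Icc_self hp.2⟩
        have a2 := a1.aemeasurable (μ := volume) sq_open.measurableSet
        exact ((a2.sub h.meas).pow_const 2).ennreal_ofReal
      calc ∫⁻ p in disc R, ENNReal.ofReal ((v t (aff c p).1 (aff c p).2 - F p) ^ 2)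
          = ∫⁻ p in disc R, (fun p : ℝ × ℝ => ENNReal.ofReal ((v t p.1 p.2 - G p) ^ 2))
              (aff c p) := by
            refine setLIntegral_congr_fun (disc_open R).measurableSet fun p hp => ?_
            show _ = ENNReal.ofReal ((v t (aff c p).1 (aff c p).2 - G (aff c p)) ^ 2)
            rw [hG p hp]
        _ = ∫⁻ p, ENNReal.ofReal ((v t p.1 p.2 - G p) ^ 2)
              ∂(Measure.map (aff c) (volume.restrict (disc R))) := by
            rw [lintegral_map' (hae.mono_ac hac) hAm.aemeasurable]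
        _ ≤ C * ∫⁻ p in sq, ENNReal.ofReal ((v t p.1 p.2 - G p) ^ 2) := by
            refine (lintegral_mono' hpush le_rfl).trans ?_
            rw [lintegral_smul_measure, smul_eq_mul]
    have h3 : Tendsto (fun t => C * ∫⁻ p in sq, ENNReal.ofReal ((v t p.1 p.2 - G p) ^ 2))
        (𝓝[>] 0) (𝓝 (C * 0)) := ENNReal.Tendsto.const_mul h.init (Or.inr hC)
    rw [mul_zero] at h3
    refine tendsto_of_tendsto_of_tendsto_of_le_of_le' tendsto_const_nhds h3
      (Eventually.of_forall fun _ => bot_le) ?_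
    filter_upwards [Ioc_mem_nhdsGT hT] with t ht
    exact h1 t ht
  · exact fun p _ => h.fin _ _
  · have h1 := (key _ h.ex).const_mul (c ^ 2)
    refine IntegrableOn.congr_fun h1 ?_ (measurableSet_Ioo.prod (disc_open R).measurableSet)
    intro q hq
    show c ^ 2 * vx q.1 (aff c q.2).1 (aff c q.2).2 ^ 2 = _
    ring
  · have h1 := (key _ h.ey).const_mul (c ^ 2)
    refine IntegrableOn.congr_fun h1 ?_ (measurableSet_Ioo.prod (disc_open R).measurableSet)
    intro q hq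
    show c ^ 2 * vy q.1 (aff c q.2).1 (aff c q.2).2 ^ 2 = _
    ring

/-- the function on the square -/
lemma cut {R : ℝ} (hR : 0 < R) {F : ℝ × ℝ → ℝ} (hF : MemLp F 2 (volume.restrict (disc R))) :
    ∃ G : ℝ × ℝ → ℝ, MemLp G 2 (volume.restrict sq) ∧
      ∀ p ∈ disc R, G (aff (2 * R)⁻¹ p) = F p := by
  classical
  refine ⟨fun q => (disc R).indicator F (2 * R * q.1 + -R, 2 * R * q.2 + -R), ?_, ?_⟩
  · have h1 : MemLp ((disc R).indicator F) 2 volume :=
      (memLp_indicator_iff_restrict (disc_open R).measurableSet).2 hF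
    have h2 : MemLp ((disc R).indicator F) 2
        (Measure.map (fun p : ℝ × ℝ => (2 * R * p.1 + -R, 2 * R * p.2 + -R)) volume) := by
      rw [map_plane (by positivity)]
      exact h1.smul_measure (ENNReal.mul_ne_top ENNReal.ofReal_ne_top ENNReal.ofReal_ne_top)
    exact (h2.comp_of_map (by fun_prop)).restrict _
  · intro p hp
    have e : ((2 * R * (aff (2 * R)⁻¹ p).1 + -R, 2 * R * (aff (2 * R)⁻¹ p).2 + -R) : ℝ × ℝ) = p := by
      unfold aff
      ext
      · field_simp; ring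
      · field_simp; ring
    show (disc R).indicator F (2 * R * (aff (2 * R)⁻¹ p).1 + -R, 2 * R * (aff (2 * R)⁻¹ p).2 + -R) = _
    rw [e, indicator_of_mem hp]

/-- **JOB DSC.** -/
theorem t_DSC : S_DSC := by
  intro R T F hR hT hF
  obtain ⟨G, hG, hGF⟩ := cut hR hF
  have hB := t_BND
  have hC := Pool.Agent.V5helper59.PF.t_CON hB
  have hE := Pool.Agent.V5helper73.PF.t_COE
  have hp := prof hC (Pool.Agent.V5helper86.PF.t_DX hB) (Pool.Agent.V5helper80.PF.t_DT hB) hE
    (Pool.Agent.V5helper29.PF.t_INI hE hB hC) (Pool.Agent.V5helper29.PF.t_ENX hE hB hC)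
    (Pool.Agent.V5helper6.PF.t_ENY hE hB hC) (a := (2 * R)⁻¹ * (2 * R)⁻¹)
    (b := (2 * R)⁻¹ * (2 * R)⁻¹) (by positivity) (by positivity) hT hG
  exact ⟨_, prof_disc hR hT hF.aestronglyMeasurable.aemeasurable hGF hp⟩

end Pool.Agent.V5helper22.PF
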